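import Pool.Agent.Q80.AC.Stm2

/-!
# Coefficients of the regular representation (jobs COEF and FACONT of the project AC, helper58)
-/

set_option autoImplicit false

open MeasureTheory Topology Filter
open scoped ENNReal NNReal ComplexConjugate

noncomputable section

namespace Q58.AC.COEF

open Pool.Agent.Q80.AC

section mul

variable {H : Type} [Group H] [MeasurableSpace H] [MeasurableMul H] (m : Measure H)
  [m.IsMulLeftInvariant]

theorem lam_mul (s t : H) (ξ : Lp ℂ 2 m) : lam m (s * t) ξ = lam m s (lam m t ξ) := by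
  apply Lp.ext
  have h1 := Lp.coeFn_compMeasurePreserving ξ (measurePreserving_mul_left m (s * t)⁻¹)
  have h2 := Lp.coeFn_compMeasurePreserving (lam m t ξ) (measurePreserving_mul_left m s⁻¹)
  have h3 := Lp.coeFn_compMeasurePreserving ξ (measurePreserving_mul_left m t⁻¹)
  have h4 := (measurePreserving_mul_left m s⁻¹).quasiMeasurePreserving.ae_eq_comp h3
  filter_upwards [h1, h2, h4] with x e1 e2 e4
  refine e1.trans (Eq.trans ?_ (e4.symm.trans e2.symm))
  simp only [Function.comp_apply, mul_inv_rev, mul_assoc]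

theorem lam_one (ξ : Lp ℂ 2 m) : lam m 1 ξ = ξ := by
  apply Lp.ext
  have h1 := Lp.coeFn_compMeasurePreserving ξ (measurePreserving_mul_left m (1 : H)⁻¹)
  filter_upwards [h1] with x e1
  refine e1.trans ?_
  simp only [Function.comp_apply, inv_one, one_mul]

theorem inner_eq (x y : H) (ξ : Lp ℂ 2 m) :
    (inner ℂ ξ (lam m (x⁻¹ * y) ξ) : ℂ) = inner ℂ (lam m x ξ) (lam m y ξ) := by
  rw [← (lam m x).inner_map_map ξ (lam m (x⁻¹ * y) ξ), ← lam_mul, mul_inv_cancel_left]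

theorem posDef (ξ : Lp ℂ 2 m) : PosDef (fun s => (inner ℂ ξ (lam m s ξ) : ℂ)) := by
  intro n x c
  have key : (∑ i, ∑ j, conj (c i) * c j * (inner ℂ ξ (lam m ((x i)⁻¹ * x j) ξ) : ℂ)) =
      ((‖∑ i, c i • lam m (x i) ξ‖ ^ 2 : ℝ) : ℂ) := by
    have h := inner_self_eq_norm_sq_to_K (𝕜 := ℂ) (∑ i, c i • lam m (x i) ξ)
    rw [show ((‖∑ i, c i • lam m (x i) ξ‖ ^ 2 : ℝ) : ℂ) =
      ((‖∑ i, c i • lam m (x i) ξ‖ : ℝ) : ℂ) ^ 2 by push_cast; rfl]
    refine Eq.trans ?_ h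
    rw [sum_inner]
    refine Finset.sum_congr rfl fun i _ => ?_
    rw [inner_sum]
    refine Finset.sum_congr rfl fun j _ => ?_
    rw [inner_eq, inner_smul_left, inner_smul_right]
    ring
  change (∑ i, ∑ j, conj (c i) * c j * (inner ℂ ξ (lam m ((x i)⁻¹ * x j) ξ) : ℂ)).im = 0 ∧
    0 ≤ (∑ i, ∑ j, conj (c i) * c j * (inner ℂ ξ (lam m ((x i)⁻¹ * x j) ξ) : ℂ)).re
  rw [key]
  exact ⟨Complex.ofReal_im _, by rw [Complex.ofReal_re]; positivity⟩

theorem norm_le (ξ η : Lp ℂ 2 m) (s : H) : ‖(inner ℂ η (lam m s ξ) : ℂ)‖ ≤ ‖ξ‖ * ‖η‖ := by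
  refine (norm_inner_le_norm _ _).trans ?_
  rw [(lam m s).norm_map, mul_comm]

end mul

theorem t_COEF : S_COEF := by
  intro H _ _ _ _ _ _ _ _ m _ ξ η
  exact ⟨posDef m ξ, continuous_const.inner (lam_cont m ξ), norm_le m ξ η⟩

theorem t_FACONT : S_FACONT := by
  intro H _ _ _ _ _ _ _ _ m _ C φ hφ
  obtain ⟨ξ, η, hs, hC, hφ⟩ := hφ
  have hb : ∀ n s, ‖(inner ℂ (η n) (lam m s (ξ n)) : ℂ)‖ ≤ ‖ξ n‖ * ‖η n‖ := fun n s =>
    norm_le m (ξ n) (η n) s
  have hφ' : φ = fun s => ∑' n, (inner ℂ (η n) (lam m s (ξ n)) : ℂ) := funext hφ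
  refine ⟨?_, ?_, ?_⟩
  · rw [hφ']
    exact continuous_tsum (fun n => continuous_const.inner (lam_cont m (ξ n))) hs hb
  · intro s
    rw [hφ s]
    exact (tsum_of_norm_bounded hs.hasSum fun n => hb n s).trans hC
  · intro a
    have e1 : ∀ n, ‖a • ξ n‖ * ‖η n‖ = ‖a‖ * (‖ξ n‖ * ‖η n‖) := fun n => by
      rw [norm_smul, mul_assoc]
    refine ⟨fun n => a • ξ n, η, ?_, ?_, ?_⟩
    · simp_rw [e1]; exact hs.mul_left _
    · simp_rw [e1]
      rw [tsum_mul_left]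
      exact mul_le_mul_of_nonneg_left hC (norm_nonneg a)
    · intro s
      change a * φ s = _
      rw [hφ s, ← tsum_mul_left]
      refine tsum_congr fun n => ?_
      rw [map_smul, inner_smul_right]

end Q58.AC.COEF
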