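import Pool.Agent.Q58.AC.COEF

/-! Job FACONT of the project AC (helper58); the proof is in `Pool/Agent/Q58/AC/COEF.lean`. -/

set_option autoImplicit false

namespace Q58.AC.FACONT

open Pool.Agent.Q80.AC

theorem t_FACONT : S_FACONT := Q58.AC.COEF.t_FACONT

end Q58.AC.FACONT
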